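import Pool.Agent.Helper75.PX.Stmts

/-!
# Row CE: the centralizer of `α` and `β` in a division algebra of dimension sixteen
-/

set_option autoImplicit false

universe u

open Module

namespace Pool.Agent.Helper75.PX

section
variable {K D : Type u} [Field K] [DivisionRing D] [Algebra K D]

/-- the elements commuting with `α` and `β` -/
def CE_C (K : Type u) {D : Type u} [Field K] [DivisionRing D] [Algebra K D] (α β : D) :
    Submodule K D where
  carrier := {x | x * α = α * x ∧ x * β = β * x}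
  add_mem' := by
    rintro x y ⟨h1, h2⟩ ⟨h3, h4⟩
    exact ⟨by rw [add_mul, mul_add, h1, h3], by rw [add_mul, mul_add, h2, h4]⟩
  zero_mem' := ⟨by simp, by simp⟩
  smul_mem' := by
    rintro k x ⟨h1, h2⟩
    exact ⟨by rw [smul_mul_assoc, mul_smul_comm, h1], by rw [smul_mul_assoc, mul_smul_comm, h2]⟩

theorem CE_two (h2 : (2 : D) ≠ 0) {γ y y' : D} (hγ : γ ≠ 0) (h : y * γ = γ * y)
    (h' : y' * γ = -(γ * y')) (hs : y + y' = 0) : y = 0 ∧ y' = 0 := by
  have h3 : γ * (y - y') = 0 := by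
    have h4 : (y + y') * γ = 0 := by rw [hs, zero_mul]
    rw [add_mul, h, h'] at h4
    rw [mul_sub, sub_eq_add_neg]
    exact h4
  have h4 : y - y' = 0 := (mul_eq_zero.1 h3).resolve_left hγ
  have h5 : 2 * y = 0 := by
    have h6 : 2 * y = (y + y') + (y - y') := by
      rw [two_mul]
      abel
    rw [h6, hs, h4, add_zero]
  have h6 : y = 0 := (mul_eq_zero.1 h5).resolve_left h2
  refine ⟨h6, ?_⟩
  rw [h6, zero_add] at hs
  exact hs

/-- the independence of `1, α, β, αβ` -/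
theorem CE_ind (h2 : (2 : D) ≠ 0) (α β z w : D) (hab : α * β = β * α) (hz0 : z ≠ 0) (hw0 : w ≠ 0)
    (hα : α ≠ 0) (hβ : β ≠ 0) (hza : z * α = -(α * z)) (hzb : z * β = β * z)
    (hwa : w * α = α * w) (hwb : w * β = -(β * w)) (t : Fin 4 → K)
    (h : t 0 • (1 : D) + t 1 • α + t 2 • β + t 3 • (α * β) = 0) :
    t 0 = 0 ∧ t 1 = 0 ∧ t 2 = 0 ∧ t 3 = 0 := by
  have haz : α * z = -(z * α) := by rw [hza, neg_neg]
  have hbw : β * w = -(w * β) := by rw [hwb, neg_neg]
  have habz : (α * β) * z = -(z * (α * β)) := by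
    rw [mul_assoc, ← hzb, ← mul_assoc, haz, neg_mul, mul_assoc]
  have habw : (α * β) * w = -(w * (α * β)) := by
    rw [mul_assoc, hbw, mul_neg, ← mul_assoc, ← hwa, mul_assoc]
  have h1 := CE_two h2 hz0 (y := t 0 • (1 : D) + t 2 • β) (y' := t 1 • α + t 3 • (α * β))
    (by rw [add_mul, mul_add, smul_mul_assoc, smul_mul_assoc, mul_smul_comm, mul_smul_comm,
      one_mul, mul_one, hzb])
    (by rw [add_mul, mul_add, smul_mul_assoc, smul_mul_assoc, mul_smul_comm, mul_smul_comm,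
      haz, habz, smul_neg, smul_neg, neg_add])
    (by rw [← h]; abel)
  have h3 := CE_two h2 hw0 (y := t 0 • (1 : D)) (y' := t 2 • β)
    (by rw [smul_mul_assoc, mul_smul_comm, one_mul, mul_one])
    (by rw [smul_mul_assoc, mul_smul_comm, hbw, smul_neg]) h1.1
  have h4 := CE_two h2 hw0 (y := t 1 • α) (y' := t 3 • (α * β))
    (by rw [smul_mul_assoc, mul_smul_comm, hwa])
    (by rw [smul_mul_assoc, mul_smul_comm, habw, smul_neg]) h1.2
  exact ⟨(smul_eq_zero.1 h3.1).resolve_right one_ne_zero, (smul_eq_zero.1 h4.1).resolve_right hα,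
    (smul_eq_zero.1 h3.2).resolve_right hβ,
    (smul_eq_zero.1 h4.2).resolve_right (mul_ne_zero hα hβ)⟩

/-- four copies of the centralizer -/
def CE_f (α β z w : D) : ((CE_C K α β × CE_C K α β) × (CE_C K α β × CE_C K α β)) →ₗ[K] D where
  toFun p := ((p.1.1 : D) + w * (p.1.2 : D)) + (z * (p.2.1 : D) + w * (z * (p.2.2 : D)))
  map_add' p q := by
    simp only [Prod.fst_add, Prod.snd_add, Submodule.coe_add, mul_add]
    abel
  map_smul' k p := by
    simp only [Prod.smul_fst, Prod.smul_snd, Submodule.coe_smul, mul_smul_comm, smul_add,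
      RingHom.id_apply]

theorem CE_inj (h2 : (2 : D) ≠ 0) (α β z w : D) (hz0 : z ≠ 0) (hw0 : w ≠ 0)
    (hα : α ≠ 0) (hβ : β ≠ 0) (hza : z * α = -(α * z)) (hzb : z * β = β * z)
    (hwa : w * α = α * w) (hwb : w * β = -(β * w)) :
    Function.Injective (CE_f (K := K) α β z w) := by
  rw [injective_iff_map_eq_zero]
  rintro ⟨⟨x0, x1⟩, ⟨x2, x3⟩⟩ hp
  have h : ((x0 : D) + w * (x1 : D)) + (z * (x2 : D) + w * (z * (x3 : D))) = 0 := hp
  have h1 := CE_two h2 hα (y := (x0 : D) + w * (x1 : D))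
    (y' := z * (x2 : D) + w * (z * (x3 : D)))
    (by
      rw [add_mul, mul_add, x0.2.1, mul_assoc, x1.2.1, ← mul_assoc, hwa, mul_assoc])
    (by
      rw [add_mul, mul_add, mul_assoc, x2.2.1, ← mul_assoc, hza, mul_assoc w, mul_assoc z,
        x3.2.1, ← mul_assoc z, hza, neg_mul, neg_mul, mul_neg, mul_assoc, mul_assoc,
        ← mul_assoc w, hwa, mul_assoc, neg_add]) h
  have h3 := CE_two h2 hβ (y := (x0 : D)) (y' := w * (x1 : D)) x0.2.2
    (by rw [mul_assoc, x1.2.2, ← mul_assoc, hwb, neg_mul, mul_assoc]) h1.1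
  have h4 := CE_two h2 hβ (y := z * (x2 : D)) (y' := w * (z * (x3 : D)))
    (by rw [mul_assoc, x2.2.2, ← mul_assoc, hzb, mul_assoc])
    (by
      rw [mul_assoc, mul_assoc, x3.2.2, ← mul_assoc z, hzb, ← mul_assoc w, ← mul_assoc w, hwb,
        neg_mul, neg_mul, mul_assoc, mul_assoc]) h1.2
  have e0 : x0 = 0 := Subtype.ext h3.1
  have e1 : x1 = 0 := Subtype.ext ((mul_eq_zero.1 h3.2).resolve_left hw0)
  have e2 : x2 = 0 := Subtype.ext ((mul_eq_zero.1 h4.1).resolve_left hz0)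
  have e3 : x3 = 0 := Subtype.ext
    ((mul_eq_zero.1 ((mul_eq_zero.1 h4.2).resolve_left hw0)).resolve_left hz0)
  rw [e0, e1, e2, e3]
  rfl

end

theorem st_CE : ST_CE.{u} := by
  intro K D _ _ _ _ hD h2 α β z w a b _ _ hab hz0 hw0 hα hβ hza hzb hwa hwb x hx1 hx2
  have hD2 : (2 : D) ≠ 0 := by
    rw [← map_ofNat (algebraMap K D) 2]
    exact (map_ne_zero _).2 h2
  have hfin : FiniteDimensional K D := FiniteDimensional.of_finrank_pos (by rw [hD]; norm_num)
  have hle := LinearMap.finrank_le_finrank_of_injective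
    (CE_inj (K := K) hD2 α β z w hz0 hw0 hα hβ hza hzb hwa hwb)
  rw [finrank_prod, finrank_prod, hD] at hle
  have c1 : (1 : D) ∈ CE_C K α β := ⟨by rw [one_mul, mul_one], by rw [one_mul, mul_one]⟩
  have ca : α ∈ CE_C K α β := ⟨rfl, hab⟩
  have cb : β ∈ CE_C K α β := ⟨hab.symm, rfl⟩
  have cab : α * β ∈ CE_C K α β :=
    ⟨by rw [mul_assoc, ← hab], by rw [← mul_assoc, ← hab]⟩
  let g : Fin 4 → CE_C K α β := ![⟨1, c1⟩, ⟨α, ca⟩, ⟨β, cb⟩, ⟨α * β, cab⟩]
  have hval : ∀ t : Fin 4 → K, ((∑ i, t i • g i : CE_C K α β) : D) =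
      t 0 • (1 : D) + t 1 • α + t 2 • β + t 3 • (α * β) := by
    intro t
    rw [Fin.sum_univ_four]
    rfl
  have hg : LinearIndependent K g := by
    rw [Fintype.linearIndependent_iff]
    intro t ht
    have h1 : t 0 • (1 : D) + t 1 • α + t 2 • β + t 3 • (α * β) = 0 := by
      rw [← hval t, ht]
      rfl
    have h3 := CE_ind hD2 α β z w hab hz0 hw0 hα hβ hza hzb hwa hwb t h1
    intro i
    fin_cases i
    · exact h3.1
    · exact h3.2.1
    · exact h3.2.2.1
    · exact h3.2.2.2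
  have hcard : Fintype.card (Fin 4) = finrank K (CE_C K α β) := by
    have h3 := hg.fintype_card_le_finrank
    rw [Fintype.card_fin] at h3 ⊢
    omega
  have hspan := hg.span_eq_top_of_card_eq_finrank' hcard
  have hx : (⟨x, hx1, hx2⟩ : CE_C K α β) ∈ Submodule.span K (Set.range g) := by
    rw [hspan]
    exact Submodule.mem_top
  rw [Submodule.mem_span_range_iff_exists_fun] at hx
  obtain ⟨v, hv⟩ := hx
  refine ⟨v, ?_⟩
  have h4 := congrArg (fun y : CE_C K α β => (y : D)) hv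
  unfold uE
  rw [← hval v]
  exact h4.symm

end Pool.Agent.Helper75.PX
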